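import Mathlib

set_option autoImplicit false

/-!
For every integer `n ≥ 2` there is a semigroup whose semigroup covering number is exactly `n`.

The semigroup is a directed union `T 0 ≤ T 1 ≤ T 2 ≤ …` of semigroups of partial transformations
of the set of sequences `ζ : ℕ → Q n`, where `Q n` is the set of states of a finite automaton
reading the words `x_i x_i x_j^(l+1) x_i x_j` (`i < j`).  The semigroup `T (k+1)` is generated by
`n` letters `x_0, …, x_(n-1)` of level `k+1`; each of the words above, read at level `k+1`,
acts as the `l`-th letter of level `k`.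
-/

namespace Pool.Agent.Results.MP_2bfc8a_al.AllCoveringNumbers

/-- `F` is a family of proper (nonempty) subsemigroups of `S` whose union is `S`. -/
def IsCovering (S : Type) [Semigroup S] (F : Set (Subsemigroup S)) : Prop :=
  (∀ A ∈ F, (A : Set S).Nonempty ∧ (A : Set S) ≠ Set.univ) ∧
    (⋃ A ∈ F, (A : Set S)) = Set.univ

/-- The semigroup covering number of `S`: the least cardinality of a family of proper
(nonempty) subsemigroups of `S` whose union is `S`; it is `⊤` if there is no finite such family. -/
noncomputable def sigmaS (S : Type) [Semigroup S] : ℕ∞ :=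
  sInf {m : ℕ∞ | ∃ F : Set (Subsemigroup S), IsCovering S F ∧ F.encard = m}

/-- States of the automaton. -/
inductive Q (n : ℕ) : Type
  | o : Q n
  | s1 (i : Fin n) : Q n
  | s2 (i : Fin n) : Q n
  | s3 (i j r : Fin n) : Q n
  | s4 (i j r : Fin n) : Q n

/-- The first letter of the word read so far. -/
def color {n : ℕ} : Q n → Option (Fin n)
  | Q.o => none
  | Q.s1 i => some i
  | Q.s2 i => some i
  | Q.s3 i _ _ => some i
  | Q.s4 i _ _ => some i

/-- Results of a transition. -/
inductive Res (n : ℕ) : Type
  | dead : Res n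
  | go (q : Q n) : Res n
  | out (l : Fin n) : Res n

/-- Transitions of the automaton. -/
def delta {n : ℕ} : Q n → Fin n → Res n
  | Q.o, a => if (a : ℕ) + 1 < n then Res.go (Q.s1 a) else Res.dead
  | Q.s1 i, a => if a = i ∧ (i : ℕ) + 1 < n then Res.go (Q.s2 i) else Res.dead
  | Q.s2 i, a => if i < a then Res.go (Q.s3 i a ⟨0, a.pos⟩) else Res.dead
  | Q.s3 i j r, a =>
      if i < j then
        if a = j then
          if h : (r : ℕ) + 1 < n then Res.go (Q.s3 i j ⟨r + 1, h⟩) else Res.dead
        else if a = i then Res.go (Q.s4 i j r) else Res.dead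
      else Res.dead
  | Q.s4 i j r, a => if i < j ∧ a = j then Res.out r else Res.dead

/-- Running the automaton on a word: the list of outputs and the final state. -/
def run {n : ℕ} : List (Fin n) → Q n → Option (List (Fin n) × Q n)
  | [], q => some ([], q)
  | a :: v, q =>
    match delta q a with
    | Res.dead => none
    | Res.go q' => run v q'
    | Res.out l => (run v Q.o).map (fun p => (l :: p.1, p.2))

/-- Configurations. -/
abbrev Z (n : ℕ) : Type := ℕ → Q n

open Classical in
/-- Action of the letter `l` of level `k` on configurations. -/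
noncomputable def act {n : ℕ} : ℕ → Fin n → Z n → Option (Z n)
  | 0, l, ζ => if ∀ j, ζ j = Q.o then some (Function.update ζ 0 (Q.s1 l)) else none
  | k + 1, l, ζ =>
    if ∀ j, k + 1 < j → ζ j = Q.o then
      match delta (ζ (k + 1)) l with
      | Res.dead => none
      | Res.go q => some (Function.update ζ (k + 1) q)
      | Res.out l' => act k l' (Function.update ζ (k + 1) Q.o)
    else none

/-- Action of a word of level `k`, read from left to right. -/
noncomputable def wact {n : ℕ} (k : ℕ) : List (Fin n) → Z n → Option (Z n)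
  | [], ζ => some ζ
  | a :: v, ζ => (act k a ζ).bind (wact k v)

theorem act_high {n : ℕ} : ∀ (k : ℕ) (l : Fin n) (ζ ζ' : Z n), act k l ζ = some ζ' →
    (∀ j, k < j → ζ j = Q.o) ∧ (∀ j, k < j → ζ' j = Q.o)
  | 0, l, ζ, ζ', h => by
    unfold act at h
    split_ifs at h with h0
    simp only [Option.some.injEq] at h
    subst h
    refine ⟨fun j _ => h0 j, fun j hj => ?_⟩
    rw [Function.update_of_ne (by omega)]
    exact h0 j
  | k + 1, l, ζ, ζ', h => by
    unfold act at h
    split_ifs at h with h0
    refine ⟨h0, fun j hj => ?_⟩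
    cases hd : delta (ζ (k + 1)) l with
    | dead => simp [hd] at h
    | go q =>
      simp only [hd, Option.some.injEq] at h
      subst h
      rw [Function.update_of_ne (by omega)]
      exact h0 j hj
    | out l' =>
      simp only [hd] at h
      exact (act_high k l' _ _ h).2 j (by omega)

theorem wact_high {n : ℕ} (k : ℕ) (v : List (Fin n)) (hv : v ≠ []) (ζ ζ' : Z n)
    (h : wact k v ζ = some ζ') :
    (∀ j, k < j → ζ j = Q.o) ∧ (∀ j, k < j → ζ' j = Q.o) := by
  induction v generalizing ζ with
  | nil => exact absurd rfl hv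
  | cons a v ih =>
    simp only [wact, Option.bind_eq_some_iff] at h
    obtain ⟨ζ1, h1, h2⟩ := h
    have h3 := act_high k a ζ ζ1 h1
    refine ⟨h3.1, ?_⟩
    by_cases hv' : v = []
    · subst hv'
      simp only [wact, Option.some.injEq] at h2
      subst h2
      exact h3.2
    · exact (ih hv' ζ1 h2).2

theorem sim {n : ℕ} (k : ℕ) (v : List (Fin n)) (ζ : Z n) (hζ : ∀ j, k + 1 < j → ζ j = Q.o) :
    wact (k + 1) v ζ = (run v (ζ (k + 1))).bind (fun p =>
      (wact k p.1 (Function.update ζ (k + 1) Q.o)).map
        (fun ζ' => Function.update ζ' (k + 1) p.2)) := by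
  induction v generalizing ζ with
  | nil => simp [wact, run]
  | cons a v ih =>
    have hact : act (k + 1) a ζ = match delta (ζ (k + 1)) a with
      | Res.dead => none
      | Res.go q => some (Function.update ζ (k + 1) q)
      | Res.out l' => act k l' (Function.update ζ (k + 1) Q.o) := by
      rw [act, if_pos hζ]
    cases hd : delta (ζ (k + 1)) a with
    | dead => simp [wact, run, hd, hact]
    | go q =>
      simp only [wact, run, hd, hact, Option.bind_some]
      rw [ih]
      · simp
      · intro j hj
        rw [Function.update_of_ne (by omega)]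
        exact hζ j hj
    | out l =>
      simp only [wact, run, hd, hact]
      cases h1 : act k l (Function.update ζ (k + 1) Q.o) with
      | none =>
        simp only [Option.bind_none]
        cases h2 : run v Q.o with
        | none => simp
        | some p => simp [wact, h1]
      | some ζ1 =>
        have h3 := act_high k l _ _ h1
        have h4 : ζ1 (k + 1) = Q.o := h3.2 (k + 1) (by omega)
        have h5 : Function.update ζ1 (k + 1) Q.o = ζ1 := by
          rw [← h4]; exact Function.update_eq_self _ _
        simp only [Option.bind_some]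
        rw [ih ζ1 (fun j hj => h3.2 j (by omega)), h4, h5]
        cases h2 : run v Q.o with
        | none => simp
        | some p => simp [wact, h1]

/-- A state that is not the origin is killed by a word `a a b …` with `a < b`. -/
theorem kill {n : ℕ} (a b : Fin n) (v : List (Fin n)) (hab : a < b) (q : Q n) (hq : q ≠ Q.o) :
    run (a :: a :: b :: v) q = none := by
  cases q with
  | o => exact absurd rfl hq
  | s1 i =>
    by_cases h : a = i ∧ (i : ℕ) + 1 < n
    · simp [run, delta, h.1, h.2]
    · simp [run, delta, h]
  | s2 i =>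
    by_cases h : i < a
    · have hba : b ≠ a := ne_of_gt hab
      have hbi : b ≠ i := ne_of_gt (h.trans hab)
      by_cases h1 : (0 : ℕ) + 1 < n
      · simp [run, delta, h, h1, hba, hbi]
      · simp [run, delta, h, h1]
    · simp [run, delta, h]
  | s3 i j r =>
    by_cases hij : i < j
    · by_cases haj : a = j
      · subst haj
        have hba : b ≠ a := ne_of_gt hab
        have hbi : b ≠ i := ne_of_gt (hij.trans hab)
        by_cases h1 : (r : ℕ) + 1 < n
        · by_cases h2 : (r : ℕ) + 1 + 1 < n
          · simp [run, delta, hij, h1, h2, hba, hbi]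
          · simp [run, delta, hij, h1, h2]
        · simp [run, delta, hij, h1]
      · by_cases hai : a = i
        · subst hai
          simp [run, delta, hij, haj]
        · simp [run, delta, hij, haj, hai]
    · simp [run, delta, hij]
  | s4 i j r =>
    by_cases h : i < j ∧ a = j
    · have hba : b ≠ a := ne_of_gt hab
      by_cases h1 : (a : ℕ) + 1 < n
      · simp only [run, delta, if_pos h, if_pos h1]
        simp [hba]
      · simp only [run, delta, if_pos h, if_neg h1]
        simp
    · simp [run, delta, h]

/-- The shape of words readable from the origin. -/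
theorem shape {n : ℕ} (v : List (Fin n)) (hv : v ≠ []) (h : run v Q.o ≠ none) :
    (∃ a, v = [a]) ∨ (∃ a, v = [a, a]) ∨ (∃ a b v', a < b ∧ v = a :: a :: b :: v') := by
  match v, hv, h with
  | [a], _, _ => exact Or.inl ⟨a, rfl⟩
  | a :: a' :: v', _, h =>
    by_cases h1 : (a : ℕ) + 1 < n
    · by_cases h2 : a' = a
      · subst h2
        match v', h with
        | [], _ => exact Or.inr (Or.inl ⟨a', rfl⟩)
        | b :: v'', h =>
          by_cases h3 : a' < b
          · exact Or.inr (Or.inr ⟨a', b, v'', h3, rfl⟩)
          · exfalso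
            apply h
            simp [run, delta, h1, h3]
      · exfalso
        apply h
        simp [run, delta, h1, h2]
    · exfalso
      apply h
      simp [run, delta, h1]

theorem delta_ne_o {n : ℕ} (q q' : Q n) (a : Fin n) (h : delta q a = Res.go q') : q' ≠ Q.o := by
  cases q <;> simp only [delta] at h <;> split_ifs at h <;>
    (simp only [Res.go.injEq] at h; subst h; simp)

theorem run_output {n : ℕ} (v : List (Fin n)) (q q' : Q n) (hv : v ≠ [] ∨ q ≠ Q.o)
    (h : run v q = some ([], q')) : q' ≠ Q.o := by
  induction v generalizing q with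
  | nil =>
    simp only [run, Option.some.injEq, Prod.mk.injEq, true_and] at h
    subst h
    simpa using hv
  | cons a v ih =>
    simp only [run] at h
    cases hd : delta q a with
    | dead => simp [hd] at h
    | go q1 =>
      simp only [hd] at h
      exact ih q1 (Or.inr (delta_ne_o q q1 a hd)) h
    | out l => simp [hd] at h

/-- The codeword with output `l` on the letters `i < j`. -/
def code {n : ℕ} (i j l : Fin n) : List (Fin n) :=
  i :: i :: j :: (List.replicate (l : ℕ) j ++ [i, j])

theorem run_replicate {n : ℕ} (i j : Fin n) (hij : i < j) (v : List (Fin n)) (m : ℕ) :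
    ∀ (r : Fin n) (h : (r : ℕ) + m < n),
      run (List.replicate m j ++ v) (Q.s3 i j r) = run v (Q.s3 i j ⟨r + m, h⟩) := by
  induction m with
  | zero => intro r h; simp
  | succ m ih =>
    intro r h
    have h1 : (r : ℕ) + 1 < n := by omega
    rw [List.replicate_succ, List.cons_append]
    simp only [run, delta, if_pos hij, if_true, dif_pos h1]
    rw [ih ⟨r + 1, h1⟩ (by simp; omega)]
    congr 2
    ext
    simp
    omega

theorem run_code {n : ℕ} (i j l : Fin n) (hij : i < j) :
    run (code i j l) Q.o = some ([l], Q.o) := by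
  have h1 : (i : ℕ) + 1 < n := by
    have := j.isLt
    have : (i : ℕ) < j := hij
    omega
  have h0 : (0 : ℕ) + l < n := by have := l.isLt; omega
  have hn : 0 < n := by omega
  have hne : i ≠ j := ne_of_lt hij
  have e1 : run (code i j l) Q.o =
      run (List.replicate (l : ℕ) j ++ [i, j]) (Q.s3 i j ⟨0, hn⟩) := by
    simp [code, run, delta, h1, hij]
  rw [e1, run_replicate i j hij [i, j] l ⟨0, hn⟩ h0]
  simp [run, delta, hij, hne]

theorem run_code_ne {n : ℕ} (i j l : Fin n) (hij : i < j) (q : Q n) (hq : q ≠ Q.o) :
    run (code i j l) q = none :=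
  kill i j _ hij q hq

/-- The letter `l` of level `k` is the codeword `code i j l` of level `k + 1`. -/
theorem wact_code {n : ℕ} (k : ℕ) (i j l : Fin n) (hij : i < j) (ζ : Z n) :
    wact (k + 1) (code i j l) ζ = act k l ζ := by
  by_cases hζ : ∀ j, k + 1 < j → ζ j = Q.o
  · rw [sim k _ ζ hζ]
    by_cases h0 : ζ (k + 1) = Q.o
    · rw [h0, run_code i j l hij]
      have h5 : Function.update ζ (k + 1) Q.o = ζ := by
        rw [← h0]; exact Function.update_eq_self _ _
      rw [h5]
      simp only [Option.bind_some, wact]
      cases h1 : act k l ζ with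
      | none => simp
      | some ζ1 =>
        have h3 := act_high k l _ _ h1
        have h4 : ζ1 (k + 1) = Q.o := h3.2 (k + 1) (by omega)
        simp only [Option.bind_some, Option.map_some, Option.some.injEq]
        rw [← h4]; exact Function.update_eq_self _ _
    · rw [run_code_ne i j l hij _ h0]
      simp only [Option.bind_none]
      cases h1 : act k l ζ with
      | none => rfl
      | some ζ1 => exact absurd ((act_high k l _ _ h1).1 (k + 1) (by omega)) h0
  · have h1 : act (k + 1) i ζ = none := by rw [act, if_neg hζ]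
    have h2 : act k l ζ = none := by
      cases h1 : act k l ζ with
      | none => rfl
      | some ζ1 => exact absurd (fun j hj => (act_high k l _ _ h1).1 j (by omega)) hζ
    rw [h2, code, wact, h1, Option.bind_none]

/-- The set of configurations attached to the colour `i`: the state at the topmost level
that is not at the origin, if there is one, has colour `i`. -/
def U {n : ℕ} (i : Fin n) : Set (Z n) :=
  {ζ | ∀ K, (∀ j, K < j → ζ j = Q.o) → ζ K ≠ Q.o → color (ζ K) = some i}

theorem color_of_ne {n : ℕ} (q : Q n) (hq : q ≠ Q.o) : ∃ i, color q = some i := by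
  cases q with
  | o => exact absurd rfl hq
  | s1 i => exact ⟨i, rfl⟩
  | s2 i => exact ⟨i, rfl⟩
  | s3 i _ _ => exact ⟨i, rfl⟩
  | s4 i _ _ => exact ⟨i, rfl⟩

theorem mem_U_update {n : ℕ} (i : Fin n) (ζ : Z n) (k : ℕ) (q : Q n)
    (hζ : ∀ j, k < j → ζ j = Q.o) (hq : color q = some i) (hq' : q ≠ Q.o) :
    Function.update ζ k q ∈ U i := by
  intro K hK hKo
  rcases lt_trichotomy K k with h | h | h
  · exfalso
    apply hq'
    have := hK k h
    simpa using this
  · subst h
    simpa using hq
  · exfalso
    apply hKo
    rw [Function.update_of_ne (by omega)]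
    exact hζ K h

/-- A word `v` of level `k` preserves `U i` when this holds. -/
def Pres {n : ℕ} (k : ℕ) (v : List (Fin n)) (i : Fin n) : Prop :=
  ∀ ζ ∈ U i, ∀ ζ', wact k v ζ = some ζ' → ζ' ∈ U i

theorem pres_zero {n : ℕ} (v : List (Fin n)) (hv : v ≠ []) : ∃ i, Pres 0 v i := by
  match v, hv with
  | [a], _ =>
    refine ⟨a, ?_⟩
    intro ζ _ ζ' h
    simp only [wact, Option.bind_eq_some_iff, Option.some.injEq, exists_eq_right] at h
    unfold act at h
    split_ifs at h with h0
    simp only [Option.some.injEq] at h
    subst h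
    exact mem_U_update a ζ 0 _ (fun j _ => h0 j) rfl (by simp)
  | a :: b :: v', _ =>
    refine ⟨a, ?_⟩
    intro ζ _ ζ' h
    exfalso
    simp only [wact, Option.bind_eq_some_iff] at h
    obtain ⟨ζ1, h1, ζ2, h2, _⟩ := h
    unfold act at h1 h2
    split_ifs at h1 h2 with h3 h4
    simp only [Option.some.injEq] at h1
    subst h1
    have := h4 0
    simp at this

theorem dead_of_last {n : ℕ} (i : Fin n) (hi : ¬ ((i : ℕ) + 1 < n)) (q : Q n)
    (hq : color q = some i) (a : Fin n) : delta q a = Res.dead := by
  have hlt : ∀ j : Fin n, ¬ (i < j) := by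
    intro j hj
    have h1 := j.isLt
    have h2 : (i : ℕ) < j := hj
    omega
  cases q with
  | o => simp [color] at hq
  | s1 i' =>
    simp only [color, Option.some.injEq] at hq
    subst hq
    simp [delta, hi]
  | s2 i' =>
    simp only [color, Option.some.injEq] at hq
    subst hq
    simp [delta, hlt]
  | s3 i' _ _ =>
    simp only [color, Option.some.injEq] at hq
    subst hq
    simp [delta, hlt]
  | s4 i' _ _ =>
    simp only [color, Option.some.injEq] at hq
    subst hq
    simp [delta, hlt]

theorem delta_same {n : ℕ} (q : Q n) (a : Fin n) (hq : color q = some a) :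
    delta q a = Res.dead ∨ ∃ q', delta q a = Res.go q' ∧ color q' = some a := by
  cases q with
  | o => simp [color] at hq
  | s1 i' =>
    simp only [color, Option.some.injEq] at hq
    subst hq
    by_cases h : (i' : ℕ) + 1 < n
    · right
      exact ⟨Q.s2 i', by simp [delta, h], rfl⟩
    · left
      simp [delta, h]
  | s2 i' =>
    simp only [color, Option.some.injEq] at hq
    subst hq
    left
    simp [delta]
  | s3 i' j r =>
    simp only [color, Option.some.injEq] at hq
    subst hq
    by_cases h : i' < j
    · right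
      exact ⟨Q.s4 i' j r, by simp [delta, h, ne_of_lt h], rfl⟩
    · left
      simp [delta, h]
  | s4 i' j _ =>
    simp only [color, Option.some.injEq] at hq
    subst hq
    left
    simp only [delta]
    rw [if_neg]
    rintro ⟨h1, h2⟩
    exact absurd h2 (ne_of_lt h1)

/-- The letter `a` of level `k + 1` preserves `U a`. -/
theorem pres_letter {n : ℕ} (k : ℕ) (a : Fin n) : Pres (k + 1) [a] a := by
  intro ζ hζU ζ' h
  simp only [wact, Option.bind_eq_some_iff, Option.some.injEq, exists_eq_right] at h
  have hh := (act_high (k + 1) a ζ ζ' h).1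
  rw [act, if_pos hh] at h
  by_cases h0 : ζ (k + 1) = Q.o
  · rw [h0] at h
    by_cases h1 : (a : ℕ) + 1 < n
    · simp only [delta, if_pos h1, Option.some.injEq] at h
      subst h
      exact mem_U_update a ζ (k + 1) _ hh rfl (by simp)
    · simp [delta, h1] at h
  · have hc := hζU (k + 1) hh h0
    rcases delta_same _ a hc with h1 | ⟨q', h1, h2⟩
    · rw [h1] at h
      simp at h
    · rw [h1] at h
      simp only [Option.some.injEq] at h
      subst h
      exact mem_U_update a ζ (k + 1) _ hh h2 (delta_ne_o _ _ _ h1)

theorem pres_append {n : ℕ} (k : ℕ) (u v : List (Fin n)) (i : Fin n) (hu : Pres k u i)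
    (hv : Pres k v i) : Pres k (u ++ v) i := by
  have key : ∀ (u : List (Fin n)) (ζ : Z n), wact k (u ++ v) ζ = (wact k u ζ).bind (wact k v) := by
    intro u
    induction u with
    | nil => intro ζ; simp [wact]
    | cons a u ih =>
      intro ζ
      simp only [List.cons_append, wact]
      cases act k a ζ with
      | none => simp
      | some ζ1 => simp [ih]
  intro ζ hζ ζ' h
  rw [key, Option.bind_eq_some_iff] at h
  obtain ⟨ζ1, h1, h2⟩ := h
  exact hv ζ1 (hu ζ hζ ζ1 h1) ζ' h2

/-- Every element of every level preserves some `U i`. -/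
theorem pres_exists {n : ℕ} (hn : 0 < n) : ∀ (k : ℕ) (v : List (Fin n)), v ≠ [] →
    ∃ i, Pres k v i
  | 0, v, hv => pres_zero v hv
  | k + 1, v, hv => by
    by_cases hrun : run v Q.o = none
    · refine ⟨⟨n - 1, by omega⟩, ?_⟩
      intro ζ hζU ζ' h
      exfalso
      have hh := (wact_high (k + 1) v hv ζ ζ' h).1
      rw [sim k v ζ hh] at h
      by_cases h0 : ζ (k + 1) = Q.o
      · rw [h0, hrun] at h
        simp at h
      · have hc := hζU (k + 1) hh h0
        cases v with
        | nil => exact hv rfl
        | cons a v =>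
          have hd := dead_of_last _ (by simp; omega) _ hc a
          simp [run, hd] at h
    · rcases shape v hv hrun with ⟨a, rfl⟩ | ⟨a, rfl⟩ | ⟨a, b, v', hab, rfl⟩
      · exact ⟨a, pres_letter k a⟩
      · exact ⟨a, pres_append (k + 1) [a] [a] a (pres_letter k a) (pres_letter k a)⟩
      · obtain ⟨p, hp⟩ := Option.ne_none_iff_exists'.mp hrun
        obtain ⟨L, q⟩ := p
        -- the common analysis
        have key : ∀ ζ ζ' : Z n, wact (k + 1) (a :: a :: b :: v') ζ = some ζ' →
            (∀ j, k + 1 < j → ζ j = Q.o) ∧ ∃ ζ'', wact k L ζ = some ζ'' ∧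
              (∀ j, k < j → ζ'' j = Q.o) ∧ ζ' = Function.update ζ'' (k + 1) q := by
          intro ζ ζ' h
          have hh := (wact_high (k + 1) _ hv ζ ζ' h).1
          rw [sim k _ ζ hh] at h
          by_cases h0 : ζ (k + 1) = Q.o
          · rw [h0, hp] at h
            have h5 : Function.update ζ (k + 1) Q.o = ζ := by
              rw [← h0]; exact Function.update_eq_self _ _
            rw [h5] at h
            simp only [Option.bind_some, Option.map_eq_some_iff] at h
            obtain ⟨ζ'', h1, h2⟩ := h
            refine ⟨hh, ζ'', h1, ?_, h2.symm⟩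
            by_cases hL : L = []
            · subst hL
              simp only [wact, Option.some.injEq] at h1
              subst h1
              intro j hj
              rcases Nat.lt_or_ge (k + 1) j with h3 | h3
              · exact hh j h3
              · have : j = k + 1 := by omega
                rw [this]; exact h0
            · exact (wact_high k L hL _ _ h1).2
          · rw [kill a b v' hab _ h0] at h
            simp at h
        by_cases hq : q = Q.o
        · have hL : L ≠ [] := by
            rintro rfl
            exact run_output _ _ _ (Or.inl hv) hp hq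
          obtain ⟨i, hi⟩ := pres_exists hn k L hL
          refine ⟨i, ?_⟩
          intro ζ hζU ζ' h
          obtain ⟨_, ζ'', h1, h2, h3⟩ := key ζ ζ' h
          have h4 : ζ' = ζ'' := by
            rw [h3, hq, ← h2 (k + 1) (by omega)]
            exact Function.update_eq_self _ _
          rw [h4]
          exact hi ζ hζU ζ'' h1
        · obtain ⟨i, hi⟩ := color_of_ne q hq
          refine ⟨i, ?_⟩
          intro ζ _ ζ' h
          obtain ⟨_, ζ'', _, h2, h3⟩ := key ζ ζ' h
          rw [h3]
          exact mem_U_update i ζ'' (k + 1) q (fun j hj => h2 j (by omega)) hi hq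

/-- The element of `Function.End (Option (Z n))` given by a word `v` of level `k`. -/
noncomputable def wgen {n : ℕ} (k : ℕ) (v : List (Fin n)) : Function.End (Option (Z n)) :=
  fun x => x.bind (wact k v)

theorem wact_append {n : ℕ} (k : ℕ) (u v : List (Fin n)) (ζ : Z n) :
    wact k (u ++ v) ζ = (wact k u ζ).bind (wact k v) := by
  induction u generalizing ζ with
  | nil => simp [wact]
  | cons a u ih =>
    simp only [List.cons_append, wact]
    cases act k a ζ with
    | none => simp
    | some ζ1 => simp [ih]

theorem wgen_append {n : ℕ} (k : ℕ) (u v : List (Fin n)) :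
    wgen k (u ++ v) = wgen k v * wgen k u := by
  funext x
  cases x with
  | none => rfl
  | some ζ =>
    change wact k (u ++ v) ζ = (wact k u ζ).bind (wact k v)
    exact wact_append k u v ζ

/-- The subsemigroup generated by the letters of level `k`. -/
def T {n : ℕ} (k : ℕ) : Subsemigroup (Function.End (Option (Z n))) where
  carrier := {M | ∃ v : List (Fin n), v ≠ [] ∧ M = wgen k v}
  mul_mem' := by
    rintro _ _ ⟨u, hu, rfl⟩ ⟨v, hv, rfl⟩
    refine ⟨v ++ u, by simp [hu], (wgen_append k v u).symm⟩

/-- A subsemigroup containing all letters of level `k` contains `T k`. -/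
theorem T_le {n : ℕ} (k : ℕ) (A : Subsemigroup (Function.End (Option (Z n))))
    (h : ∀ l : Fin n, wgen k [l] ∈ A) : T k ≤ A := by
  rintro _ ⟨v, hv, rfl⟩
  induction v with
  | nil => exact absurd rfl hv
  | cons a v ih =>
    by_cases hv' : v = []
    · subst hv'
      exact h a
    · have : wgen k (a :: v) = wgen k v * wgen k [a] := wgen_append k [a] v
      rw [this]
      exact A.mul_mem (ih hv') (h a)

theorem word_mem {n : ℕ} (k : ℕ) (A : Subsemigroup (Function.End (Option (Z n))))
    (v : List (Fin n)) (hv : v ≠ []) (h : ∀ l ∈ v, wgen k [l] ∈ A) : wgen k v ∈ A := by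
  induction v with
  | nil => exact absurd rfl hv
  | cons a v ih =>
    by_cases hv' : v = []
    · subst hv'
      exact h a (by simp)
    · have : wgen k (a :: v) = wgen k v * wgen k [a] := wgen_append k [a] v
      rw [this]
      exact A.mul_mem (ih hv' (fun l hl => h l (by simp [hl]))) (h a (by simp))

theorem wgen_code {n : ℕ} (k : ℕ) (i j l : Fin n) (hij : i < j) :
    wgen (k + 1) (code i j l) = wgen k [l] := by
  funext x
  cases x with
  | none => rfl
  | some ζ =>
    change wact (k + 1) (code i j l) ζ = wact k [l] ζ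
    rw [wact_code k i j l hij]
    simp [wact]

/-- Two distinct letters of level `k + 1` generate all of `T k`. -/
theorem T_le_of_pair {n : ℕ} (k : ℕ) (A : Subsemigroup (Function.End (Option (Z n))))
    (i j : Fin n) (hij : i ≠ j) (hi : wgen (k + 1) [i] ∈ A) (hj : wgen (k + 1) [j] ∈ A) :
    T k ≤ A := by
  have main : ∀ i j : Fin n, i < j → wgen (k + 1) [i] ∈ A → wgen (k + 1) [j] ∈ A → T k ≤ A := by
    intro i j hij hi hj
    apply T_le
    intro l
    rw [← wgen_code k i j l hij]
    apply word_mem
    · simp [code]
    · intro m hm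
      simp only [code, List.mem_cons, List.mem_append, List.mem_replicate,
        List.not_mem_nil, or_false] at hm
      rcases hm with rfl | rfl | rfl | ⟨_, rfl⟩ | rfl | rfl <;> assumption
  rcases lt_or_gt_of_ne hij with h | h
  · exact main i j h hi hj
  · exact main j i h hj hi

theorem T_mono_succ {n : ℕ} (hn : 2 ≤ n) (k : ℕ) : (T k : Subsemigroup (Function.End (Option (Z n)))) ≤ T (k + 1) := by
  apply T_le_of_pair k (T (k + 1)) ⟨0, by omega⟩ ⟨1, by omega⟩ (by simp)
  · exact ⟨[_], by simp, rfl⟩
  · exact ⟨[_], by simp, rfl⟩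

theorem T_mono {n : ℕ} (hn : 2 ≤ n) {k k' : ℕ} (h : k ≤ k') :
    (T k : Subsemigroup (Function.End (Option (Z n)))) ≤ T k' := by
  induction h with
  | refl => exact le_rfl
  | step _ ih => exact ih.trans (T_mono_succ hn _)

/-- The union of all `T k`. -/
def S {n : ℕ} (hn : 2 ≤ n) : Subsemigroup (Function.End (Option (Z n))) where
  carrier := {M | ∃ k, M ∈ T k}
  mul_mem' := by
    rintro a b ⟨k, hk⟩ ⟨k', hk'⟩
    refine ⟨max k k', (T (max k k')).mul_mem ?_ ?_⟩
    · exact T_mono hn (le_max_left _ _) hk
    · exact T_mono hn (le_max_right _ _) hk'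

/-- The members of the covering. -/
def P {n : ℕ} (hn : 2 ≤ n) (i : Fin n) : Subsemigroup (S hn) where
  carrier := {M | ∀ ζ ∈ U i, ∀ ζ', M.1 (some ζ) = some ζ' → ζ' ∈ U i}
  mul_mem' := by
    rintro a b ha hb ζ hζ ζ' h
    change a.1 (b.1 (some ζ)) = some ζ' at h
    cases h1 : b.1 (some ζ) with
    | none =>
      rw [h1] at h
      obtain ⟨k, v, _, hv⟩ := a.2
      rw [hv] at h
      change (none : Option (Z n)).bind (wact k v) = some ζ' at h
      simp at h
    | some ζ1 =>
      rw [h1] at h
      exact ha ζ1 (hb ζ hζ ζ1 h1) ζ' h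

theorem gen_mem_S {n : ℕ} (hn : 2 ≤ n) (k : ℕ) (l : Fin n) : wgen k [l] ∈ S hn :=
  ⟨k, [l], by simp, rfl⟩

theorem gen_zero_mem_P_iff {n : ℕ} (hn : 2 ≤ n) (i l : Fin n) :
    (⟨wgen 0 [l], gen_mem_S hn 0 l⟩ : S hn) ∈ P hn i ↔ l = i := by
  have hval : wgen 0 [l] (some (fun _ => Q.o)) =
      some (Function.update (fun _ => Q.o) 0 (Q.s1 l)) := by
    change wact 0 [l] (fun _ => Q.o) = _
    simp [wact, act]
  constructor
  · intro h
    have h1 : (fun _ => Q.o : Z n) ∈ U i := by
      intro K _ h
      exact absurd rfl h
    have h2 := h _ h1 _ hval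
    have h3 := h2 0 (by
      intro j hj
      rw [Function.update_of_ne (by omega)]) (by simp)
    simpa [color] using h3
  · rintro rfl ζ _ ζ' h
    change wact 0 [l] ζ = some ζ' at h
    simp only [wact, Option.bind_eq_some_iff, Option.some.injEq, exists_eq_right] at h
    unfold act at h
    split_ifs at h with h0
    simp only [Option.some.injEq] at h
    subst h
    exact mem_U_update l ζ 0 _ (fun j _ => h0 j) rfl (by simp)

theorem covering {n : ℕ} (hn : 2 ≤ n) : IsCovering (S hn) (Set.range (P hn)) := by
  constructor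
  · rintro _ ⟨i, rfl⟩
    constructor
    · exact ⟨_, (gen_zero_mem_P_iff hn i i).mpr rfl⟩
    · intro h
      obtain ⟨j, hj⟩ : ∃ j : Fin n, j ≠ i := by
        by_cases h0 : (⟨0, by omega⟩ : Fin n) = i
        · refine ⟨⟨1, by omega⟩, ?_⟩
          rw [← h0]
          simp
        · exact ⟨_, h0⟩
      have : (⟨wgen 0 [j], gen_mem_S hn 0 j⟩ : S hn) ∈ (P hn i : Set (S hn)) := by
        rw [h]; exact Set.mem_univ _
      exact hj ((gen_zero_mem_P_iff hn i j).mp this)
  · apply Set.eq_univ_of_forall
    rintro ⟨M, k, v, hv, rfl⟩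
    obtain ⟨i, hi⟩ := pres_exists (by omega : 0 < n) k v hv
    simp only [Set.mem_iUnion]
    exact ⟨P hn i, ⟨i, rfl⟩, fun ζ hζ ζ' h => hi ζ hζ ζ' h⟩

theorem lower {n : ℕ} (hn : 2 ≤ n) (F : Set (Subsemigroup (S hn))) (hF : IsCovering (S hn) F) :
    (n : ℕ∞) ≤ F.encard := by
  by_contra hlt
  rw [not_le] at hlt
  have hfin : F.Finite := Set.finite_of_encard_le_coe hlt.le
  -- an element outside each member and its level
  have hout : ∀ A ∈ F, ∃ k : ℕ, ∃ s : S hn, s ∉ A ∧ (s : Function.End (Option (Z n))) ∈ T k := by
    intro A hA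
    have h1 := (hF.1 A hA).2
    rw [Set.ne_univ_iff_exists_notMem] at h1
    obtain ⟨s, hs⟩ := h1
    obtain ⟨k, hk⟩ := s.2
    exact ⟨k, s, hs, hk⟩
  choose! lev hlev using hout
  obtain ⟨K, hK⟩ : ∃ K, ∀ A ∈ F, lev A ≤ K := by
    obtain ⟨K, hK⟩ := (hfin.image lev).bddAbove
    exact ⟨K, fun A hA => hK ⟨A, hA, rfl⟩⟩
  -- choose members containing the letters of level `K + 1`
  have hmem : ∀ i : Fin n, ∃ A ∈ F, (⟨wgen (K + 1) [i], gen_mem_S hn (K + 1) i⟩ : S hn) ∈ A := by
    intro i
    have h1 : (⟨wgen (K + 1) [i], gen_mem_S hn (K + 1) i⟩ : S hn) ∈ ⋃ A ∈ F, (A : Set (S hn)) := by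
      rw [hF.2]; exact Set.mem_univ _
    simpa using h1
  choose f hf1 hf2 using hmem
  have : Fintype F := hfin.fintype
  let g : Fin n → F := fun i => ⟨f i, hf1 i⟩
  have hcard : Fintype.card F < Fintype.card (Fin n) := by
    rw [Fintype.card_fin]
    have h1 : F.encard = (Fintype.card F : ℕ∞) := by
      rw [Set.encard_eq_coe_toFinset_card, Set.toFinset_card]
    rw [h1] at hlt
    exact_mod_cast hlt
  obtain ⟨i, j, hij, hgij⟩ := Fintype.exists_ne_map_eq_of_card_lt g hcard
  have hfij : f i = f j := congrArg Subtype.val hgij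
  -- the image of the common member in the big semigroup
  let A := f i
  let B : Subsemigroup (Function.End (Option (Z n))) := A.map (MulMemClass.subtype (S hn))
  have hBi : wgen (K + 1) [i] ∈ B := ⟨_, hf2 i, rfl⟩
  have hBj : wgen (K + 1) [j] ∈ B := by
    refine ⟨⟨wgen (K + 1) [j], gen_mem_S hn (K + 1) j⟩, ?_, rfl⟩
    change _ ∈ f i
    rw [hfij]
    exact hf2 j
  have hTB : T K ≤ B := T_le_of_pair K B i j hij hBi hBj
  obtain ⟨s, hs, hsT⟩ := hlev A (hf1 i)
  have hsB : (s : Function.End (Option (Z n))) ∈ B := hTB (T_mono hn (hK A (hf1 i)) hsT)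
  obtain ⟨t, ht, hts⟩ := hsB
  have : t = s := Subtype.ext hts
  exact hs (this ▸ ht)

/-- Every integer `n ≥ 2` is the semigroup covering number of some semigroup. -/
theorem result : ∀ n : ℕ, 2 ≤ n → ∃ (S : Type) (_ : Semigroup S), sigmaS S = n := by
  intro n hn
  refine ⟨S hn, inferInstance, le_antisymm ?_ ?_⟩
  · have h1 : sigmaS (S hn) ≤ (Set.range (P hn)).encard :=
      sInf_le ⟨Set.range (P hn), covering hn, rfl⟩
    refine h1.trans ?_
    rw [← Set.image_univ]
    refine (Set.encard_image_le _ _).trans ?_
    simp
  · apply le_sInf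
    rintro m ⟨F, hF, rfl⟩
    exact lower hn F hF

end Pool.Agent.Results.MP_2bfc8a_al.AllCoveringNumbers
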